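import Pool.Agent.helper47.MSW.SpecA
import Pool.Agent.helper47.MSW.SpecB
import Pool.Agent.helper47.MSW.SpecC

/-!
# Row msw:ZLB (lower bound for `Z`)
-/

set_option autoImplicit false

namespace Pool.Agent.MSW

open Equiv Finset Function MeasureTheory Pool.Agent.helper48.PP
open Pool.Agent.DSW (Pr Has GP wt)
open scoped ENNReal Classical

theorem ZLB_nil (hHMN : HMN_stmt) (H : ℕ) (p : ℝ) : A1 H p [] = 1 := by
  obtain ⟨-, -, -, -, -, -, -, h8⟩ := hHMN
  unfold A1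
  rw [tsum_eq_single (0 : Pt)]
  · have h1 : {ω : Om | mnU [] ω 0} = Set.univ := by
      ext ω
      simp only [Set.mem_ofPred_eq, Set.mem_univ, iff_true]
      exact (h8 ω 0).2 rfl
    rw [h1, measure_univ, mul_one]
    have h2 : nm (0 : Pt) = 0 := rfl
    rw [h2, mul_zero, pow_zero]
  · intro z hz
    have h1 : {ω : Om | mnU [] ω z} = ∅ := by
      ext ω
      simp only [Set.mem_ofPred_eq, Set.mem_empty_iff_false, iff_false]
      intro h
      exact hz ((h8 ω z).1 h)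
    rw [h1, measure_empty, mul_zero]

theorem ZLB_tl (X : List Pat) (b : Pat) : tl (X ++ [b]) = tl X + (b.1 + 1) := by
  unfold tl
  rw [List.map_append, List.sum_append]
  rfl

theorem ZLB (hZLO : ZLO_stmt) (hPTD : PTD_stmt) (hHMN : HMN_stmt) : ZLB_stmt := by
  intro M hM
  obtain ⟨θ₁, hθ₁, hθ₁1, h1⟩ := hZLO M hM
  obtain ⟨K, c, θ₂, hK, hc, hc1, hθ₂, hθ₂1, h2⟩ := hPTD M hM
  have hM0 : (0 : ℝ) < M := by exact_mod_cast hM
  refine ⟨min c (1 / (8 * (M : ℝ) ^ 2)), 1 / 648, min θ₁ θ₂, by positivity, by norm_num,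
    lt_min hθ₁ hθ₂, (min_le_left _ _).trans hθ₁1, ?_⟩
  intro θ H X hθ hθ0 hMH hX hne
  rcases List.eq_nil_or_concat X with h | ⟨X', b, h⟩
  · exact absurd h hne
  have hXe : X = X' ++ [b] := by rw [h, List.concat_eq_append]
  have hbM : b.1 + 1 ≤ M := (hX b (by rw [hXe]; simp)).1
  have hX' : Adm M X' := fun a ha => hX a (by
    rw [hXe]
    exact List.mem_append_left _ ha)
  have htb : tl [b] = b.1 + 1 := by
    unfold tl
    rw [List.map_singleton, List.sum_singleton]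
  have h3 := h1 θ H X' [b] [] hθ (hθ0.trans (min_le_left _ _)) hMH (by omega) (by omega) hX'
    (fun a ha => absurd ha List.not_mem_nil)
  rw [List.append_nil, ← hXe, List.reverse_nil, ZLB_nil hHMN, mul_one, htb] at h3
  have h4 := (h2 θ H X' hθ (hθ0.trans (min_le_right _ _)) hMH fun a ha => (hX' a ha).1).2.2.1
  refine le_trans ?_ h3
  refine le_trans ?_ (mul_le_mul_right h4 _)
  rw [← ENNReal.ofReal_mul (by positivity), hXe, ZLB_tl]
  refine ENNReal.ofReal_le_ofReal ?_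
  set c₀ : ℝ := min c (1 / (8 * (M : ℝ) ^ 2)) with hc₀
  have hc₀0 : 0 < c₀ := by positivity
  have h5 : (c₀ * θ) ^ tl X' ≤ (c * θ) ^ tl X' :=
    pow_le_pow_left₀ (by positivity) (mul_le_mul_of_nonneg_right (min_le_left _ _) hθ.le) _
  have h6 : (c₀ * θ) ^ (b.1 + 1) ≤ (θ / (8 * ((b.1 + 1 : ℕ) : ℝ) ^ 2)) ^ (b.1 + 1) := by
    refine pow_le_pow_left₀ (by positivity) ?_ _
    have h7 : ((b.1 + 1 : ℕ) : ℝ) ≤ M := by exact_mod_cast hbM
    have h8 : (0 : ℝ) < ((b.1 + 1 : ℕ) : ℝ) := by exact_mod_cast Nat.succ_pos _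
    calc c₀ * θ ≤ 1 / (8 * (M : ℝ) ^ 2) * θ := mul_le_mul_of_nonneg_right (min_le_right _ _) hθ.le
      _ = θ / (8 * (M : ℝ) ^ 2) := by ring
      _ ≤ θ / (8 * ((b.1 + 1 : ℕ) : ℝ) ^ 2) := by
          refine div_le_div_of_nonneg_left hθ.le (by positivity) ?_
          exact mul_le_mul_of_nonneg_left (pow_le_pow_left₀ h8.le h7 2) (by norm_num)
  calc 1 / 648 * (c₀ * θ) ^ (tl X' + (b.1 + 1))
      = 1 / 648 * ((c₀ * θ) ^ (b.1 + 1) * (c₀ * θ) ^ tl X') := by rw [pow_add]; ring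
    _ ≤ 1 / 648 * ((θ / (8 * ((b.1 + 1 : ℕ) : ℝ) ^ 2)) ^ (b.1 + 1) * (c * θ) ^ tl X') :=
        mul_le_mul_of_nonneg_left (mul_le_mul h6 h5 (by positivity) (by positivity)) (by norm_num)
    _ = _ := by ring

end Pool.Agent.MSW
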